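import Pool.Agent.H13DY.Stm

/-!
# Project DY (helper13), jobs ADM (ADM2, A35, A5) and APQ, by helper166
-/

set_option autoImplicit false

namespace Pool.Agent.Q166.DY

open Function Pool.Agent.H13DY

/-- the finite check -/
def Chk (p M : ℕ) (K : List ℕ) [NeZero p] : Prop :=
  ∀ c y : ZMod p, ∀ m ∈ List.range (p + 1), 0 < m → (qm c)^[m] y = y →
    (∀ j ∈ List.range m, 0 < j → (qm c)^[j] y ≠ y) →
    m ≤ M ∧ (mult c m y = 0 ∨ ∀ r ∈ List.range p, 0 < r → mult c m y ^ r = 1 →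
      (∀ s ∈ List.range r, 0 < s → mult c m y ^ s ≠ 1) → m * r ∈ K)

instance (p M : ℕ) (K : List ℕ) [NeZero p] : Decidable (Chk p M K) := by
  unfold Chk; infer_instance

theorem c2 : Chk 2 2 [] := by decide +kernel
theorem c3 : Chk 3 2 [1, 2] := by decide +kernel
theorem c5 : Chk 5 3 [1, 2, 4, 8] := by decide +kernel
theorem c7 : Chk 7 3 [1, 2, 3, 4, 6] := by decide +kernel
theorem c11 : Chk 11 5 [1, 2, 5, 6, 10, 15, 20] := by decide +kernel
theorem c13 : Chk 13 6 [1, 2, 3, 4, 6, 8, 12, 24, 36] := by decide +kernel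

/-- the exact period and the order of the multiplier -/
theorem adm_cases (p : ℕ) [Fact p.Prime] (c : ZMod p) (n : ℕ) (h : Adm p c n) :
    ∃ (y : ZMod p) (m : ℕ), 0 < m ∧ m ≤ p ∧ (qm c)^[m] y = y ∧ (∀ j, 0 < j → j < m → (qm c)^[j] y ≠ y) ∧
      (n = m ∨ n = 0 ∨ ∃ r e : ℕ, 0 < r ∧ r < p ∧ mult c m y ≠ 0 ∧ mult c m y ^ r = 1 ∧
        (∀ s, 0 < s → s < r → mult c m y ^ s ≠ 1) ∧ n = m * r * p ^ e) := by
  obtain ⟨y, m, hm0, hm, hcase⟩ := h
  have hp : 1 < p := (Fact.out : p.Prime).one_lt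
  refine ⟨y, m, hm0, ?_, ?_, ?_, ?_⟩
  · rw [← hm]
    have := minimalPeriod_le_card (f := qm c) (x := y)
    rwa [ZMod.card] at this
  · have := isPeriodicPt_minimalPeriod (qm c) y
    rw [hm] at this
    exact this
  · intro j hj0 hj hjy
    have h1 : IsPeriodicPt (qm c) j y := hjy
    have h2 := h1.minimalPeriod_le hj0
    omega
  · rcases hcase with h1 | ⟨e, he⟩
    · exact Or.inl h1
    · right
      by_cases hμ : mult c m y = 0
      · left
        rw [hμ, orderOf_zero] at he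
        rw [he]
        simp
      · right
        have h1 : mult c m y ^ (p - 1) = 1 := ZMod.pow_card_sub_one_eq_one hμ
        have h2 : orderOf (mult c m y) ∣ p - 1 := orderOf_dvd_of_pow_eq_one h1
        have h3 : orderOf (mult c m y) ≤ p - 1 := Nat.le_of_dvd (by omega) h2
        have h4 : 0 < orderOf (mult c m y) := Nat.pos_of_dvd_of_pos h2 (by omega)
        refine ⟨orderOf (mult c m y), e, h4, by omega, hμ, pow_orderOf_eq_one _, ?_, he⟩
        intro s hs0 hs
        exact pow_ne_one_of_lt_orderOf hs0.ne' hs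

theorem adm_of_chk {p M : ℕ} {K : List ℕ} [Fact p.Prime] [NeZero p] (hc : Chk p M K) (c : ZMod p) (n : ℕ)
    (h : Adm p c n) : n ≤ M ∨ ∃ a ∈ K, ∃ e, n = a * p ^ e := by
  obtain ⟨y, m, hm0, hmp, hm1, hm2, hcase⟩ := adm_cases p c n h
  obtain ⟨h1, h2⟩ := hc c y m (List.mem_range.mpr (by omega)) hm0 hm1
    (fun j hj hj0 => hm2 j hj0 (List.mem_range.mp hj))
  rcases hcase with h3 | h3 | ⟨r, e, hr0, hrp, hμ, hr1, hr2, hn⟩
  · left
    omega
  · left
    omega
  · right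
    rcases h2 with h4 | h4
    · exact absurd h4 hμ
    · exact ⟨m * r, h4 r (List.mem_range.mpr hrp) hr0 hr1
        (fun s hs hs0 => hr2 s hs0 (List.mem_range.mp hs)), e, hn⟩

theorem adm2 : S_ADM2 := by
  intro c n h
  have : Fact (Nat.Prime 2) := ⟨Nat.prime_two⟩
  rcases adm_of_chk c2 c n h with h1 | ⟨a, ha, -⟩
  · exact h1
  · simp at ha

theorem a35 : S_A35 := by
  intro c c' n hn h3 h5
  have : Fact (Nat.Prime 3) := ⟨Nat.prime_three⟩
  have : Fact (Nat.Prime 5) := ⟨Nat.prime_five⟩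
  rcases adm_of_chk c3 c n h3 with h1 | ⟨a, ha, e, he⟩
  · omega
  rcases adm_of_chk c5 c' n h5 with h1 | ⟨b, hb, f, hf⟩
  · omega
  have he0 : e ≠ 0 := by
    rintro rfl
    simp only [List.mem_cons, List.not_mem_nil, or_false] at ha
    omega
  have h3n : 3 ∣ n := by
    rw [he]
    exact Dvd.dvd.mul_left (dvd_pow_self 3 he0) a
  rw [hf] at h3n
  rcases (Nat.Prime.dvd_mul Nat.prime_three).mp h3n with h4 | h4
  · simp only [List.mem_cons, List.not_mem_nil, or_false] at hb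
    rcases hb with rfl | rfl | rfl | rfl <;> omega
  · have := Nat.prime_three.dvd_of_dvd_pow h4
    omega

/-- the numbers attached to the primes -/
def KL : ℕ → List ℕ
  | 3 => [1, 2]
  | 5 => [1, 2, 4, 8]
  | 7 => [1, 2, 3, 4, 6]
  | 11 => [1, 2, 5, 6, 10, 15, 20]
  | 13 => [1, 2, 3, 4, 6, 8, 12, 24, 36]
  | _ => []

theorem adm_KL (p : ℕ) (hp : p = 3 ∨ p = 5 ∨ p = 7 ∨ p = 11 ∨ p = 13) (c : ZMod p) (n : ℕ) (hn : 7 ≤ n)
    (h : Adm p c n) : ∃ a ∈ KL p, ∃ e, n = a * p ^ e := by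
  rcases hp with rfl | rfl | rfl | rfl | rfl
  · have : Fact (Nat.Prime 3) := ⟨by norm_num⟩
    rcases adm_of_chk c3 c n h with h1 | h1
    · omega
    · exact h1
  · have : Fact (Nat.Prime 5) := ⟨by norm_num⟩
    rcases adm_of_chk c5 c n h with h1 | h1
    · omega
    · exact h1
  · have : Fact (Nat.Prime 7) := ⟨by norm_num⟩
    rcases adm_of_chk c7 c n h with h1 | h1
    · omega
    · exact h1
  · have : Fact (Nat.Prime 11) := ⟨by norm_num⟩
    rcases adm_of_chk c11 c n h with h1 | h1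
    · omega
    · exact h1
  · have : Fact (Nat.Prime 13) := ⟨by norm_num⟩
    rcases adm_of_chk c13 c n h with h1 | h1
    · omega
    · exact h1

/-- for a larger prime of the list the exponent is zero -/
theorem mem_KL_of_lt {p q n : ℕ} (hp : p = 3 ∨ p = 5 ∨ p = 7 ∨ p = 11 ∨ p = 13)
    (hq : q = 3 ∨ q = 5 ∨ q = 7 ∨ q = 11 ∨ q = 13) (hpq : p < q) (hp' : ∃ a ∈ KL p, ∃ e, n = a * p ^ e)
    (hq' : ∃ a ∈ KL q, ∃ e, n = a * q ^ e) : n ∈ KL q := by
  obtain ⟨a, ha, e, he⟩ := hp'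
  obtain ⟨b, hb, f, hf⟩ := hq'
  rcases Nat.eq_zero_or_pos f with rfl | hf0
  · rw [hf, pow_zero, mul_one]
    exact hb
  exfalso
  have hqp : q.Prime := by rcases hq with rfl | rfl | rfl | rfl | rfl <;> norm_num
  have hpp : p.Prime := by rcases hp with rfl | rfl | rfl | rfl | rfl <;> norm_num
  have h1 : q ∣ a * p ^ e := by
    rw [← he, hf]
    exact Dvd.dvd.mul_left (dvd_pow_self q hf0.ne') b
  rcases (Nat.Prime.dvd_mul hqp).mp h1 with h2 | h2
  · rcases hp with rfl | rfl | rfl | rfl | rfl <;>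
      rcases hq with rfl | rfl | rfl | rfl | rfl <;>
      simp only [KL, List.mem_cons, List.not_mem_nil, or_false] at ha <;> omega
  · have h3 := hqp.dvd_of_dvd_pow h2
    have h4 := (Nat.prime_dvd_prime_iff_eq hqp hpp).mp h3
    omega

theorem a5 : S_A5 := by
  intro n hn P hP hcard hadm
  have hmem : ∀ p ∈ P, p = 3 ∨ p = 5 ∨ p = 7 ∨ p = 11 ∨ p = 13 := by
    intro p hp
    have := hP hp
    simpa using this
  have hK : ∀ p ∈ P, ∃ a ∈ KL p, ∃ e, n = a * p ^ e := by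
    intro p hp
    obtain ⟨c, hc⟩ := hadm p hp
    exact adm_KL p (hmem p hp) c n hn hc
  -- the smallest prime and two larger ones
  obtain ⟨p, q, s, hp, hq, hs, hpq, hqs⟩ : ∃ p q s, p ∈ P ∧ q ∈ P ∧ s ∈ P ∧ p < q ∧ q < s := by
    have hne : P.Nonempty := Finset.card_pos.mp (by omega)
    let p := P.min' hne
    have hp : p ∈ P := P.min'_mem hne
    let P1 := P.erase p
    have hc1 : P1.card = P.card - 1 := Finset.card_erase_of_mem hp
    have hne1 : P1.Nonempty := Finset.card_pos.mp (by omega)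
    let q := P1.min' hne1
    have hq : q ∈ P1 := P1.min'_mem hne1
    let P2 := P1.erase q
    have hc2 : P2.card = P1.card - 1 := Finset.card_erase_of_mem hq
    have hne2 : P2.Nonempty := Finset.card_pos.mp (by omega)
    obtain ⟨s, hs⟩ := hne2
    have hs1 : s ∈ P1 := Finset.mem_of_mem_erase hs
    have hs2 : s ≠ q := Finset.ne_of_mem_erase hs
    have hq1 : q ∈ P := Finset.mem_of_mem_erase hq
    have hq2 : q ≠ p := Finset.ne_of_mem_erase hq
    have h1 : p ≤ q := P.min'_le q hq1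
    have h2 : q ≤ s := P1.min'_le s hs1
    exact ⟨p, q, s, hp, hq1, Finset.mem_of_mem_erase hs1, lt_of_le_of_ne h1 hq2.symm,
      lt_of_le_of_ne h2 hs2.symm⟩
  have hnq := mem_KL_of_lt (hmem p hp) (hmem q hq) hpq (hK p hp) (hK q hq)
  have hns := mem_KL_of_lt (hmem p hp) (hmem s hs) (hpq.trans hqs) (hK p hp) (hK s hs)
  have h8 : n = 8 ∧ q = 5 := by
    rcases hmem q hq with rfl | rfl | rfl | rfl | rfl <;>
      rcases hmem s hs with rfl | rfl | rfl | rfl | rfl <;>
      simp only [KL, List.mem_cons, List.not_mem_nil, or_false] at hnq hns <;> omega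
  obtain ⟨rfl, rfl⟩ := h8
  have hp3 : p = 3 := by
    rcases hmem p hp with rfl | rfl | rfl | rfl | rfl <;> omega
  subst hp3
  obtain ⟨a, ha, e, he⟩ := hK 3 hp
  simp only [KL, List.mem_cons, List.not_mem_nil, or_false] at ha
  have h3 : e ≠ 0 := by
    rintro rfl
    omega
  have h4 : 3 ∣ 8 := by
    rw [he]
    exact Dvd.dvd.mul_left (dvd_pow_self 3 h3) a
  omega

theorem apq : S_APQ := by
  intro p q hp hq hpq c c' n h h'
  have : Fact p.Prime := ⟨hp⟩
  have : Fact q.Prime := ⟨hq⟩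
  obtain ⟨y, m, hm0, hmp, -, -, hcase⟩ := adm_cases p c n h
  obtain ⟨y', m', hm0', hmq', -, -, hcase'⟩ := adm_cases q c' n h'
  have hp2 := hp.two_le
  have hq3 : 3 ≤ q := by omega
  have hqq : q ≤ q * (q - 1) := Nat.le_mul_of_pos_right q (by omega)
  rcases hcase' with h1 | h1 | ⟨r', e', hr0', hrq', -, -, -, hn'⟩
  · omega
  · omega
  rcases Nat.eq_zero_or_pos e' with rfl | he0
  · rw [hn', pow_zero, mul_one]
    exact Nat.mul_le_mul hmq' (by omega)
  have hqn : q ∣ n := by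
    rw [hn']
    exact Dvd.dvd.mul_left (dvd_pow_self q he0.ne') _
  rcases hcase with h1 | h1 | ⟨r, e, hr0, hrp, -, -, -, hn⟩
  · have := Nat.le_of_dvd (by omega) hqn
    omega
  · omega
  exfalso
  rw [hn] at hqn
  rcases (Nat.Prime.dvd_mul hq).mp hqn with h2 | h2
  · rcases (Nat.Prime.dvd_mul hq).mp h2 with h3 | h3
    · have := Nat.le_of_dvd hm0 h3
      omega
    · have := Nat.le_of_dvd hr0 h3
      omega
  · have h3 := hq.dvd_of_dvd_pow h2
    have h4 := (Nat.prime_dvd_prime_iff_eq hq hp).mp h3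
    omega

end Pool.Agent.Q166.DY
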