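import Pool.Agent.H13DY.Stm

/-!
# Project DY (helper13), by helper166: nonarchimedean absolute values and reduction
-/

set_option autoImplicit false

namespace Pool.Agent.Q166.DY

open Function Pool.Agent.H13DY Polynomial

section na

variable {K : Type} [Field K] {N : AbsoluteValue K ℝ}

theorem na_sub (na : ∀ x y, N (x + y) ≤ max (N x) (N y)) (x y : K) : N (x - y) ≤ max (N x) (N y) := by
  rw [sub_eq_add_neg]
  have := na x (-y)
  rwa [N.map_neg] at this

theorem na_eq (na : ∀ x y, N (x + y) ≤ max (N x) (N y)) {x y : K} (h : N x < N y) : N (x + y) = N y := by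
  apply le_antisymm
  · have := na x y
    rwa [max_eq_right h.le] at this
  · by_contra hcon
    have h1 : N (x + y) < N y := not_le.mp hcon
    have h2 := na_sub na (x + y) x
    have e : x + y - x = y := by ring
    rw [e] at h2
    rcases max_choice (N (x + y)) (N x) with h3 | h3 <;> rw [h3] at h2 <;> linarith

theorem na_add_lt (na : ∀ x y, N (x + y) ≤ max (N x) (N y)) {x y : K} (hx : N x < 1) (hy : N y < 1) :
    N (x + y) < 1 := lt_of_le_of_lt (na x y) (max_lt hx hy)

theorem na_add_le (na : ∀ x y, N (x + y) ≤ max (N x) (N y)) {x y : K} (hx : N x ≤ 1) (hy : N y ≤ 1) :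
    N (x + y) ≤ 1 := (na x y).trans (max_le hx hy)

theorem na_sub_lt (na : ∀ x y, N (x + y) ≤ max (N x) (N y)) {x y : K} (hx : N x < 1) (hy : N y < 1) :
    N (x - y) < 1 := lt_of_le_of_lt (na_sub na x y) (max_lt hx hy)

theorem na_sub_le (na : ∀ x y, N (x + y) ≤ max (N x) (N y)) {x y : K} (hx : N x ≤ 1) (hy : N y ≤ 1) :
    N (x - y) ≤ 1 := (na_sub na x y).trans (max_le hx hy)

theorem mul_le_one' {x y : K} (hx : N x ≤ 1) (hy : N y ≤ 1) : N (x * y) ≤ 1 := by
  rw [N.map_mul]
  exact mul_le_one₀ hx (N.nonneg y) hy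

theorem mul_lt_left {x y : K} (hx : N x < 1) (hy : N y ≤ 1) : N (x * y) < 1 := by
  rw [N.map_mul]
  calc N x * N y ≤ N x * 1 := mul_le_mul_of_nonneg_left hy (N.nonneg x)
    _ < 1 := by linarith

theorem mul_lt_right {x y : K} (hx : N x ≤ 1) (hy : N y < 1) : N (x * y) < 1 := by
  rw [mul_comm]
  exact mul_lt_left hy hx

/-- periodic points are integral -/
theorem le_one_of_periodic (na : ∀ x y, N (x + y) ≤ max (N x) (N y)) {a b : K} (ha : N a ≤ 1) (hb : N b ≤ 1)
    {g : K → K} (hg : ∀ x, g x = x ^ 2 + b * x + a) {m : ℕ} (hm : 0 < m) {x : K} (hx : g^[m] x = x) :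
    N x ≤ 1 := by
  by_contra hcon
  have h1 : 1 < N x := not_le.mp hcon
  have step : ∀ z : K, 1 < N z → N z < N (g z) := by
    intro z hz
    have h2 : N (b * z + a) < N (z ^ 2) := by
      have h3 : N (b * z + a) ≤ N z := by
        refine (na _ _).trans (max_le ?_ (by linarith))
        rw [N.map_mul]
        calc N b * N z ≤ 1 * N z := mul_le_mul_of_nonneg_right hb (N.nonneg z)
          _ = N z := one_mul _
      have h4 : N z < N (z ^ 2) := by
        rw [map_pow, sq]
        nlinarith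
      linarith
    have h5 : N (g z) = N (z ^ 2) := by
      have e : g z = (b * z + a) + z ^ 2 := by rw [hg]; ring
      rw [e, na_eq na h2]
    rw [h5, map_pow, sq]
    nlinarith
  have h2 : ∀ j : ℕ, N x < N (g^[j + 1] x) := by
    intro j
    induction j with
    | zero => exact step x h1
    | succ j ih =>
      rw [iterate_succ_apply']
      exact ih.trans (step _ (h1.trans ih))
  obtain ⟨j, rfl⟩ : ∃ j, m = j + 1 := ⟨m - 1, by omega⟩
  have := h2 j
  rw [hx] at this
  exact lt_irrefl _ this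

end na

section red

variable {p : ℕ} [Fact p.Prime] (L : Loc p)

theorem N_rat (q : ℚ) : L.N (q : AlgebraicClosure ℚ_[p]) = ‖(q : ℚ_[p])‖ := by
  have e : algebraMap ℚ_[p] (AlgebraicClosure ℚ_[p]) (q : ℚ_[p]) = (q : AlgebraicClosure ℚ_[p]) :=
    map_ratCast _ q
  rw [← e, L.ext]

theorem N_int (t : ℤ) : L.N (t : AlgebraicClosure ℚ_[p]) = ‖(t : ℚ_[p])‖ := by
  have e : algebraMap ℚ_[p] (AlgebraicClosure ℚ_[p]) (t : ℚ_[p]) = (t : AlgebraicClosure ℚ_[p]) :=
    map_intCast _ t
  rw [← e, L.ext]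

theorem N_int_le (t : ℤ) : L.N (t : AlgebraicClosure ℚ_[p]) ≤ 1 := by
  rw [N_int]
  exact Padic.norm_int_le_one t

theorem N_int_lt (t : ℤ) : L.N (t : AlgebraicClosure ℚ_[p]) < 1 ↔ (p : ℤ) ∣ t := by
  rw [N_int]
  exact Padic.norm_intCast_lt_one_iff

/-- the reduction of `u` is `v` -/
def Rd (u : AlgebraicClosure ℚ_[p]) (v : ZMod p) : Prop :=
  ∃ t : ℤ, (t : ZMod p) = v ∧ L.N (u - t) < 1

theorem Rd.le_one {L : Loc p} {u : AlgebraicClosure ℚ_[p]} {v : ZMod p} (h : Rd L u v) : L.N u ≤ 1 := by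
  obtain ⟨t, -, ht⟩ := h
  have e : u = (u - t) + t := by ring
  rw [e]
  exact na_add_le L.na ht.le (N_int_le L t)

theorem Rd.iff {L : Loc p} {u u' : AlgebraicClosure ℚ_[p]} {v v' : ZMod p} (h : Rd L u v) (h' : Rd L u' v') :
    L.N (u - u') < 1 ↔ v = v' := by
  obtain ⟨t, rfl, ht⟩ := h
  obtain ⟨t', rfl, ht'⟩ := h'
  rw [ZMod.intCast_eq_intCast_iff_dvd_sub, ← N_int_lt L]
  push_cast
  constructor
  · intro h1
    have e : (t' : AlgebraicClosure ℚ_[p]) - t = (u - t) - (u' - t') - (u - u') := by ring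
    rw [e]
    exact na_sub_lt L.na (na_sub_lt L.na ht ht') h1
  · intro h1
    have e : u - u' = (u - t) - (u' - t') - ((t' : AlgebraicClosure ℚ_[p]) - t) := by ring
    rw [e]
    exact na_sub_lt L.na (na_sub_lt L.na ht ht') h1

theorem Rd.add {L : Loc p} {u u' : AlgebraicClosure ℚ_[p]} {v v' : ZMod p} (h : Rd L u v) (h' : Rd L u' v') :
    Rd L (u + u') (v + v') := by
  obtain ⟨t, rfl, ht⟩ := h
  obtain ⟨t', rfl, ht'⟩ := h'
  refine ⟨t + t', by push_cast; rfl, ?_⟩
  have e : u + u' - ((t + t' : ℤ) : AlgebraicClosure ℚ_[p]) = (u - t) + (u' - t') := by push_cast; ring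
  rw [e]
  exact na_add_lt L.na ht ht'

theorem Rd.mul {L : Loc p} {u u' : AlgebraicClosure ℚ_[p]} {v v' : ZMod p} (h : Rd L u v) (h' : Rd L u' v') :
    Rd L (u * u') (v * v') := by
  have hu := h.le_one
  obtain ⟨t, rfl, ht⟩ := h
  obtain ⟨t', rfl, ht'⟩ := h'
  refine ⟨t * t', by push_cast; rfl, ?_⟩
  have e : u * u' - ((t * t' : ℤ) : AlgebraicClosure ℚ_[p]) = u * (u' - t') + (u - t) * t' := by push_cast; ring
  rw [e]
  exact na_add_lt L.na (mul_lt_right hu ht') (mul_lt_left ht (N_int_le L t'))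

theorem Rd.int (t : ℤ) : Rd L (t : AlgebraicClosure ℚ_[p]) (t : ZMod p) :=
  ⟨t, rfl, by rw [sub_self, map_zero]; exact one_pos⟩

theorem Rd.one : Rd L 1 1 := by
  have := Rd.int L 1
  push_cast at this
  exact this

theorem Rd.two : Rd L 2 2 := by
  have := Rd.int L 2
  push_cast at this
  exact this

theorem Rd.pow {L : Loc p} {u : AlgebraicClosure ℚ_[p]} {v : ZMod p} (h : Rd L u v) (n : ℕ) :
    Rd L (u ^ n) (v ^ n) := by
  induction n with
  | zero => rw [pow_zero, pow_zero]; exact Rd.one L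
  | succ n ih => rw [pow_succ, pow_succ]; exact ih.mul h

theorem Rd.prod {L : Loc p} {f : ℕ → AlgebraicClosure ℚ_[p]} {f' : ℕ → ZMod p} (h : ∀ i, Rd L (f i) (f' i)) (n : ℕ) :
    Rd L (∏ i ∈ Finset.range n, f i) (∏ i ∈ Finset.range n, f' i) := by
  induction n with
  | zero => rw [Finset.prod_range_zero, Finset.prod_range_zero]; exact Rd.one L
  | succ n ih => rw [Finset.prod_range_succ, Finset.prod_range_succ]; exact ih.mul (h n)

theorem Rd.rat (c : ℚ) (hc : ¬ p ∣ c.den) : Rd L (c : AlgebraicClosure ℚ_[p]) (red p c) := by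
  obtain ⟨t, ht⟩ := ZMod.intCast_surjective (red p c)
  refine ⟨t, ht, ?_⟩
  have hd : (c.den : ZMod p) ≠ 0 := by
    rw [Ne, ZMod.natCast_eq_zero_iff]
    exact hc
  have h1 : ((t * c.den - c.num : ℤ) : ZMod p) = 0 := by
    push_cast
    rw [ht]
    unfold red
    rw [mul_assoc, inv_mul_cancel₀ hd, mul_one, sub_self]
  have h2 : (p : ℤ) ∣ (t * c.den - c.num : ℤ) := (ZMod.intCast_zmod_eq_zero_iff_dvd _ p).mp h1
  have h3 : L.N ((t * c.den - c.num : ℤ) : AlgebraicClosure ℚ_[p]) < 1 := (N_int_lt L _).mpr h2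
  have h4 : L.N ((c.den : ℤ) : AlgebraicClosure ℚ_[p]) = 1 := by
    apply le_antisymm (N_int_le L _)
    by_contra hcon
    have := (N_int_lt L (c.den : ℤ)).mp (not_le.mp hcon)
    exact hc (by exact_mod_cast this)
  have hden0 : ((c.den : ℤ) : AlgebraicClosure ℚ_[p]) ≠ 0 := by
    intro h
    rw [h, map_zero] at h4
    exact zero_ne_one h4
  have e : ((c : AlgebraicClosure ℚ_[p]) - t) * ((c.den : ℤ) : AlgebraicClosure ℚ_[p]) =
      -((t * c.den - c.num : ℤ) : AlgebraicClosure ℚ_[p]) := by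
    have h5 : (c : AlgebraicClosure ℚ_[p]) * (c.den : AlgebraicClosure ℚ_[p]) = (c.num : AlgebraicClosure ℚ_[p]) := by
      have := Rat.mul_den_eq_num c
      exact_mod_cast congrArg (fun q : ℚ => (q : AlgebraicClosure ℚ_[p])) this
    push_cast
    linear_combination h5
  have h6 := congrArg L.N e
  rw [map_mul, h4, mul_one, L.N.map_neg] at h6
  rw [h6]
  exact h3

/-- the product of `x - w` over the residues `w` -/
theorem prod_sub (x : AlgebraicClosure ℚ_[p]) (hx : L.N x ≤ 1) :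
    L.N (∏ w ∈ Finset.range p, (x - (w : AlgebraicClosure ℚ_[p])) - (x ^ p - x)) < 1 := by
  classical
  let P : ℤ[X] := ∏ w ∈ Finset.range p, (X - C (w : ℤ)) - (X ^ p - X)
  have hp := (Fact.out : p.Prime)
  have hmap : P.map (Int.castRingHom (ZMod p)) = 0 := by
    have h1 : (P.map (Int.castRingHom (ZMod p))) =
        ∏ w ∈ Finset.range p, (X - C (w : ZMod p)) - (X ^ p - X) := by
      simp [P, Polynomial.map_prod]
    rw [h1, sub_eq_zero]
    have h2 : ∏ w ∈ Finset.range p, (X - C (w : ZMod p)) = ∏ a : ZMod p, (X - C a) := by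
      refine Finset.prod_bij (fun (w : ℕ) _ => (w : ZMod p)) (fun _ _ => Finset.mem_univ _) ?_ ?_ (fun _ _ => rfl)
      · intro a ha b hb hab
        have ha' := Finset.mem_range.mp ha
        have hb' := Finset.mem_range.mp hb
        have := (ZMod.natCast_eq_natCast_iff a b p).mp hab
        exact Nat.ModEq.eq_of_lt_of_lt this ha' hb'
      · intro a _
        exact ⟨a.val, Finset.mem_range.mpr (ZMod.val_lt a), ZMod.natCast_zmod_val a⟩
    rw [h2]
    have h3 := FiniteField.roots_X_pow_card_sub_X (ZMod p)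
    rw [ZMod.card] at h3
    have hmonic : (X ^ p - X : (ZMod p)[X]).Monic := by
      apply monic_X_pow_sub
      rw [degree_X]
      exact_mod_cast hp.one_lt
    have h4 : (X ^ p - X : (ZMod p)[X]).natDegree = p := FiniteField.X_pow_card_sub_X_natDegree_eq _ hp.one_lt
    have h5 := prod_multiset_X_sub_C_of_monic_of_roots_card_eq hmonic (by
      rw [h3, h4]
      show (Finset.univ : Finset (ZMod p)).card = p
      rw [Finset.card_univ, ZMod.card])
    rw [h3] at h5
    exact h5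
  have hdvd : (C (p : ℤ)) ∣ P := by
    rw [Polynomial.C_dvd_iff_dvd_coeff]
    intro i
    have h1 : (P.map (Int.castRingHom (ZMod p))).coeff i = 0 := by rw [hmap]; simp
    rw [coeff_map] at h1
    exact (ZMod.intCast_zmod_eq_zero_iff_dvd _ p).mp h1
  obtain ⟨Q, hQ⟩ := hdvd
  have h1 : aeval x P = ∏ w ∈ Finset.range p, (x - (w : AlgebraicClosure ℚ_[p])) - (x ^ p - x) := by
    simp [P, map_prod]
  rw [← h1, hQ, map_mul]
  have h2 : L.N (aeval x Q) ≤ 1 := by
    rw [aeval_eq_sum_range]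
    refine Finset.sum_induction _ (fun z => L.N z ≤ 1) (fun a b ha hb => na_add_le L.na ha hb)
      (by rw [map_zero]; exact zero_le_one) ?_
    intro i _
    rw [zsmul_eq_mul]
    refine mul_le_one' (N_int_le L _) ?_
    rw [map_pow]
    exact pow_le_one₀ (L.N.nonneg x) hx
  have h3 : L.N (aeval x (C (p : ℤ))) < 1 := by
    rw [aeval_C]
    have : (algebraMap ℤ (AlgebraicClosure ℚ_[p])) (p : ℤ) = ((p : ℤ) : AlgebraicClosure ℚ_[p]) := rfl
    rw [this, N_int_lt]
  exact mul_lt_left h3 h2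

/-- a point fixed by the Frobenius element reduces to an element of the prime field -/
theorem Rd.of_fr (x : AlgebraicClosure ℚ_[p]) (hx : L.N x ≤ 1) (hfr : L.fr x = x) : ∃ v, Rd L x v := by
  have h1 := L.frob x hx
  rw [hfr] at h1
  have h2 := prod_sub L x hx
  have h3 : L.N (∏ w ∈ Finset.range p, (x - (w : AlgebraicClosure ℚ_[p]))) < 1 := by
    have e : ∏ w ∈ Finset.range p, (x - (w : AlgebraicClosure ℚ_[p])) =
        (∏ w ∈ Finset.range p, (x - (w : AlgebraicClosure ℚ_[p])) - (x ^ p - x)) - (x - x ^ p) := by ring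
    rw [e]
    exact na_sub_lt L.na h2 h1
  by_contra hcon
  push Not at hcon
  have h4 : ∀ w : ℕ, 1 ≤ L.N (x - (w : AlgebraicClosure ℚ_[p])) := by
    intro w
    by_contra h5
    refine hcon (w : ZMod p) ⟨(w : ℤ), by push_cast; rfl, ?_⟩
    push_cast
    exact not_le.mp h5
  have h5 : 1 ≤ L.N (∏ w ∈ Finset.range p, (x - (w : AlgebraicClosure ℚ_[p]))) := by
    rw [map_prod]
    exact Finset.prod_induction _ (fun z : ℝ => 1 ≤ z)
      (fun a b ha hb => one_le_mul_of_one_le_of_one_le ha hb) le_rfl (fun w _ => h4 w)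
  linarith

end red

end Pool.Agent.Q166.DY
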