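import Pool.Agent.Q166.DY.Base

/-!
# Project DY (helper13), jobs GOOD, TWO1, TWO2, by helper166
-/

set_option autoImplicit false

namespace Pool.Agent.Q166.DY

open Function Pool.Agent.H13DY

theorem Rd.iter {p : ℕ} [Fact p.Prime] {L : Loc p} {c x : AlgebraicClosure ℚ_[p]} {c' v : ZMod p}
    (hc : Rd L c c') (hx : Rd L x v) (j : ℕ) : Rd L ((qm c)^[j] x) ((qm c')^[j] v) := by
  induction j with
  | zero => exact hx
  | succ j ih =>
    rw [iterate_succ_apply', iterate_succ_apply']
    exact (ih.pow 2).add hc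

theorem good (h : S_DISC) : S_GOOD := by
  intro p _ L c hc n hn x hFP hfr
  obtain ⟨m', hm'0, hm', hcase⟩ := hFP
  have hp := (Fact.out : p.Prime)
  set cK : AlgebraicClosure ℚ_[p] := (c : AlgebraicClosure ℚ_[p]) with hcK
  have hcR : Rd L cK (red p c) := Rd.rat L c hc
  have hc1 : L.N cK ≤ 1 := hcR.le_one
  have hper : (qm cK)^[m'] x = x := by
    have := isPeriodicPt_minimalPeriod (qm cK) x
    rw [hm'] at this
    exact this
  have hg : ∀ z : AlgebraicClosure ℚ_[p], qm cK z = z ^ 2 + 0 * z + cK := by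
    intro z
    unfold qm
    ring
  have h0 : L.N (0 : AlgebraicClosure ℚ_[p]) ≤ 1 := by rw [map_zero]; exact zero_le_one
  have hx1 : L.N x ≤ 1 := le_one_of_periodic L.na hc1 h0 hg hm'0 hper
  obtain ⟨v, hv⟩ := Rd.of_fr L x hx1 hfr
  have hit := Rd.iter hcR hv
  have hvper : IsPeriodicPt (qm (red p c)) m' v := by
    have h1 := hit m'
    rw [hper] at h1
    have h2 : L.N (x - x) < 1 := by rw [sub_self, map_zero]; exact one_pos
    exact (h1.iff hv).mp h2
  set m : ℕ := minimalPeriod (qm (red p c)) v with hm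
  have hm0 : 0 < m := hvper.minimalPeriod_pos hm'0
  have hmult : mult cK m x = ∏ i ∈ Finset.range m, (2 * (qm cK)^[i] x + 0) := by
    unfold mult
    exact Finset.prod_congr rfl fun i _ => by rw [add_zero]
  have hmult' : mult cK m' x = ∏ i ∈ Finset.range m', (2 * (qm cK)^[i] x + 0) := by
    unfold mult
    exact Finset.prod_congr rfl fun i _ => by rw [add_zero]
  rw [hmult'] at hcase
  have hpN : L.N (p : AlgebraicClosure ℚ_[p]) < 1 := by
    have := (N_int_lt L (p : ℤ)).mpr dvd_rfl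
    push_cast at this
    exact this
  have hdisc := h (AlgebraicClosure ℚ_[p]) L.N p hp L.na hpN cK 0 x hc1 h0 hx1 (qm cK) hg m' n hm'0 hm' hcase
    m hm0 ?_ ?_
  · refine ⟨v, m, hm0, rfl, ?_⟩
    rcases hdisc with h1 | ⟨r, e, hr0, hn', h2, h3⟩
    · exact Or.inl h1
    · right
      refine ⟨e, ?_⟩
      rw [← hmult] at h2 h3
      have hmR : Rd L (mult cK m x) (mult (red p c) m v) := by
        unfold mult
        exact Rd.prod (fun i => (Rd.two L).mul (hit i)) m
      have hor : orderOf (mult (red p c) m v) = r := by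
        rw [orderOf_eq_iff hr0]
        constructor
        · exact ((hmR.pow r).iff (Rd.one L)).mp h2
        · intro s hs hs0 h4
          have h5 := h3 s hs0 hs
          have h6 := ((hmR.pow s).iff (Rd.one L)).mpr h4
          linarith
      rw [hor]
      exact hn'
  · have h1 := hit m
    have h2 : (qm (red p c))^[m] v = v := by
      have := isPeriodicPt_minimalPeriod (qm (red p c)) v
      exact this
    rw [h2] at h1
    exact (h1.iff hv).mpr rfl
  · intro j hj0 hj
    by_contra hcon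
    have h1 : (qm (red p c))^[j] v = v := ((hit j).iff hv).mp (not_le.mp hcon)
    have h2 : IsPeriodicPt (qm (red p c)) j v := h1
    have h3 := h2.minimalPeriod_le hj0
    omega

/-- the change of coordinates `y = x - β` -/
theorem conj_iter {K : Type} [Field K] (c β t x : K) (hβ : β ^ 2 - β + c = 0) (ht : t = 2 * β) {g : K → K}
    (hg : ∀ z, g z = z ^ 2 + t * z + 0) (j : ℕ) : g^[j] (x - β) = (qm c)^[j] x - β := by
  induction j with
  | zero => rfl
  | succ j ih =>
    rw [iterate_succ_apply', iterate_succ_apply', ih, hg, ht]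
    unfold qm
    linear_combination -hβ

/-- the data of a point fixed by the Frobenius element, after the change of coordinates -/
theorem two_data (h : S_DISC) (L : Loc 2) (c : ℚ) (n : ℕ) (x : AlgebraicClosure ℚ_[2])
    (hFP : FP (c : AlgebraicClosure ℚ_[2]) n x) (hfr : L.fr x = x)
    (β : AlgebraicClosure ℚ_[2]) (hβ : β ^ 2 - β + c = 0) (ht : L.N (2 * β) ≤ 1) :
    ∃ (y : AlgebraicClosure ℚ_[2]) (m' : ℕ), 0 < m' ∧ L.N y ≤ 1 ∧
      (fun z => z ^ 2 + (2 * β) * z + 0)^[m'] y = y ∧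
      (L.N (y - y ^ 2) < 1 ∨ L.N (y + 2 * β - 1 - y ^ 2) < 1) ∧
      ∀ m : ℕ, 0 < m → L.N ((fun z => z ^ 2 + (2 * β) * z + 0)^[m] y - y) < 1 →
      (∀ j, 0 < j → j < m → 1 ≤ L.N ((fun z => z ^ 2 + (2 * β) * z + 0)^[j] y - y)) →
      n = m ∨ ∃ r e : ℕ, 0 < r ∧ n = m * r * 2 ^ e ∧
        L.N ((∏ i ∈ Finset.range m, (2 * (fun z => z ^ 2 + (2 * β) * z + 0)^[i] y + 2 * β)) ^ r - 1) < 1 ∧
        ∀ s, 0 < s → s < r →
          1 ≤ L.N ((∏ i ∈ Finset.range m, (2 * (fun z => z ^ 2 + (2 * β) * z + 0)^[i] y + 2 * β)) ^ s - 1) := by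
  obtain ⟨m', hm'0, hm', hcase⟩ := hFP
  set cK : AlgebraicClosure ℚ_[2] := (c : AlgebraicClosure ℚ_[2]) with hcK
  let g : AlgebraicClosure ℚ_[2] → AlgebraicClosure ℚ_[2] := fun z => z ^ 2 + (2 * β) * z + 0
  have hg : ∀ z, g z = z ^ 2 + (2 * β) * z + 0 := fun z => rfl
  have hconj := conj_iter cK β (2 * β) x hβ rfl hg
  have hper : (qm cK)^[m'] x = x := by
    have := isPeriodicPt_minimalPeriod (qm cK) x
    rw [hm'] at this
    exact this
  have hper' : g^[m'] (x - β) = x - β := by rw [hconj, hper]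
  have h0 : L.N (0 : AlgebraicClosure ℚ_[2]) ≤ 1 := by rw [map_zero]; exact zero_le_one
  have hy1 : L.N (x - β) ≤ 1 := le_one_of_periodic L.na h0 ht hg hm'0 hper'
  have hp2 : L.N ((2 : ℕ) : AlgebraicClosure ℚ_[2]) < 1 := by
    have := (N_int_lt L (2 : ℤ)).mpr dvd_rfl
    push_cast at this ⊢
    exact this
  have hmin : minimalPeriod g (x - β) = m' := by
    rw [← hm', minimalPeriod_eq_minimalPeriod_iff]
    intro j
    unfold IsPeriodicPt IsFixedPt
    rw [hconj]
    constructor
    · intro h1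
      exact sub_left_injective h1
    · intro h1
      rw [h1]
  have hmult : mult cK m' x = ∏ i ∈ Finset.range m', (2 * g^[i] (x - β) + 2 * β) := by
    unfold mult
    refine Finset.prod_congr rfl fun i _ => ?_
    rw [hconj]
    ring
  rw [hmult] at hcase
  have hfrc : L.fr cK = cK := by
    rw [hcK]
    exact map_ratCast L.fr c
  have hfrβ : L.fr β = β ∨ L.fr β = 1 - β := by
    have h1 : (L.fr β) ^ 2 - L.fr β + cK = 0 := by
      have h2 := congrArg L.fr hβ
      rw [map_add, map_sub, map_pow, map_zero, hfrc] at h2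
      exact h2
    have h2 : (L.fr β - β) * (L.fr β - (1 - β)) = 0 := by linear_combination h1 - hβ
    rcases mul_eq_zero.mp h2 with h3 | h3
    · exact Or.inl (sub_eq_zero.mp h3)
    · exact Or.inr (sub_eq_zero.mp h3)
  refine ⟨x - β, m', hm'0, hy1, hper', ?_, ?_⟩
  · have h1 := L.frob (x - β) hy1
    rw [map_sub L.fr, hfr] at h1
    rcases hfrβ with h2 | h2
    · left
      rw [h2] at h1
      exact h1
    · right
      rw [h2] at h1
      have e : x - β + 2 * β - 1 - (x - β) ^ 2 = x - (1 - β) - (x - β) ^ 2 := by ring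
      rw [e]
      exact h1
  · intro m hm0 h1 h2
    exact h (AlgebraicClosure ℚ_[2]) L.N 2 Nat.prime_two L.na hp2 0 (2 * β) (x - β) h0 ht hy1 g hg m' n
      hm'0 hmin hcase m hm0 h1 h2

theorem exists_beta (c : AlgebraicClosure ℚ_[2]) : ∃ β : AlgebraicClosure ℚ_[2], β ^ 2 - β + c = 0 := by
  obtain ⟨z, hz⟩ := IsAlgClosed.exists_pow_nat_eq (1 - 4 * c) (n := 2) (by norm_num)
  refine ⟨(1 + z) / 2, ?_⟩
  field_simp
  linear_combination hz

theorem norm_four (L : Loc 2) (c : ℚ) (hc : c ≠ 0) :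
    L.N (4 * (c : AlgebraicClosure ℚ_[2])) = (2 : ℝ) ^ (-(2 + padicValRat 2 c)) := by
  have hf2 : Fact (Nat.Prime 2) := ⟨Nat.prime_two⟩
  have e : (4 * (c : AlgebraicClosure ℚ_[2])) = ((4 * c : ℚ) : AlgebraicClosure ℚ_[2]) := by push_cast; ring
  have h4c : ((4 * c : ℚ) : ℚ_[2]) ≠ 0 := by
    rw [Ne, Rat.cast_eq_zero]
    exact mul_ne_zero (by norm_num) hc
  have h4 : padicValRat 2 (4 : ℚ) = 2 := by
    have h : (4 : ℚ) = (((2 : ℕ) ^ 2 : ℕ) : ℚ) := by norm_num
    rw [h, padicValRat.of_nat, padicValNat.prime_pow]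
    rfl
  rw [e, N_rat, Padic.norm_eq_zpow_neg_valuation h4c, Padic.valuation_ratCast,
    padicValRat.mul (by norm_num) hc, h4]
  push_cast
  rfl

theorem N_two (L : Loc 2) : L.N (2 : AlgebraicClosure ℚ_[2]) < 1 := by
  have := (N_int_lt L (2 : ℤ)).mpr dvd_rfl
  push_cast at this
  exact this

/-- the absolute value of `2 β` -/
theorem t_le (L : Loc 2) (c β : AlgebraicClosure ℚ_[2]) (hβ : β ^ 2 - β + c = 0) (hc : L.N (4 * c) ≤ 1) :
    L.N (2 * β) ≤ 1 := by
  by_contra hcon
  have h1 : 1 < L.N (2 * β) := not_le.mp hcon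
  have e : (2 * β) ^ 2 = 2 * (2 * β) - 4 * c := by linear_combination 4 * hβ
  have h2 : L.N ((2 * β) ^ 2) ≤ max (L.N (2 * (2 * β))) (L.N (4 * c)) := by
    rw [e]
    exact na_sub L.na _ _
  have h3 : L.N (2 * (2 * β)) ≤ L.N (2 * β) := by
    rw [map_mul L.N 2 (2 * β)]
    have := N_two L
    nlinarith [L.N.nonneg (2 * β)]
  have h4 : L.N ((2 * β) ^ 2) = L.N (2 * β) * L.N (2 * β) := by rw [map_pow, sq]
  rcases max_choice (L.N (2 * (2 * β))) (L.N (4 * c)) with h5 | h5 <;> rw [h5] at h2 <;> nlinarith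

theorem two1 (h : S_DISC) : S_TWO1 := by
  intro L c hval n hn x hFP hfr
  have hc0 : c ≠ 0 := by
    rintro rfl
    simp at hval
  have h4c : L.N (4 * (c : AlgebraicClosure ℚ_[2])) < 1 := by
    rw [norm_four L c hc0, hval]
    norm_num
  obtain ⟨β, hβ⟩ := exists_beta (c : AlgebraicClosure ℚ_[2])
  have ht1 := t_le L c β hβ h4c.le
  have ht : L.N (2 * β) < 1 := by
    have e : (2 * β) ^ 2 = 2 * (2 * β) - 4 * c := by linear_combination 4 * hβ
    have h2 : L.N ((2 * β) ^ 2) < 1 := by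
      rw [e]
      exact na_sub_lt L.na (mul_lt_left (N_two L) ht1) h4c
    rw [map_pow] at h2
    exact (pow_lt_one_iff_of_nonneg (L.N.nonneg _) (by norm_num)).mp h2
  obtain ⟨y, m', hm'0, hy, -, hfrob, hdisc⟩ := two_data h L c n x hFP hfr β hβ ht1
  set t : AlgebraicClosure ℚ_[2] := 2 * β with htdef
  set g : AlgebraicClosure ℚ_[2] → AlgebraicClosure ℚ_[2] := fun z => z ^ 2 + t * z + 0 with hgdef
  have hg : ∀ z, g z = z ^ 2 + t * z + 0 := fun z => rfl
  have hN1 : L.N (1 : AlgebraicClosure ℚ_[2]) = 1 := map_one _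
  have hgint : ∀ z, L.N z ≤ 1 → L.N (g z) ≤ 1 := by
    intro z hz
    rw [hg, add_zero]
    refine na_add_le L.na ?_ (mul_le_one' ht1 hz)
    rw [map_pow]
    exact pow_le_one₀ (L.N.nonneg z) hz
  have hiter : ∀ i, L.N (g^[i] y) ≤ 1 := by
    intro i
    induction i with
    | zero => exact hy
    | succ i ih =>
      rw [iterate_succ_apply']
      exact hgint _ ih
  -- the multiplier is small
  have hno : ∀ m, 0 < m → ∀ r, 0 < r →
      ¬ L.N ((∏ i ∈ Finset.range m, (2 * g^[i] y + t)) ^ r - 1) < 1 := by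
    intro m hm0 r hr0 h1
    have h2 : L.N (∏ i ∈ Finset.range m, (2 * g^[i] y + t)) < 1 := by
      obtain ⟨j, rfl⟩ : ∃ j, m = j + 1 := ⟨m - 1, by omega⟩
      rw [Finset.prod_range_succ']
      have h3 : ∀ i, L.N (2 * g^[i] y + t) < 1 := fun i =>
        na_add_lt L.na (mul_lt_left (N_two L) (hiter i)) ht
      refine mul_lt_right ?_ (h3 0)
      refine Finset.prod_induction _ (fun z => L.N z ≤ 1) (fun a b ha hb => mul_le_one' ha hb) hN1.le ?_
      intro i _
      exact (h3 (i + 1)).le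
    have h3 : L.N ((∏ i ∈ Finset.range m, (2 * g^[i] y + t)) ^ r) < 1 := by
      rw [map_pow]
      exact pow_lt_one₀ (L.N.nonneg _) h2 hr0.ne'
    have h4 := na_sub_lt L.na h3 h1
    have e : (∏ i ∈ Finset.range m, (2 * g^[i] y + t)) ^ r -
        ((∏ i ∈ Finset.range m, (2 * g^[i] y + t)) ^ r - 1) = 1 := by ring
    rw [e, hN1] at h4
    exact lt_irrefl _ h4
  by_cases h1 : L.N (g y - y) < 1
  · rcases hdisc 1 one_pos h1 (fun j hj0 hj => by omega) with h2 | ⟨r, e, hr0, -, h3, -⟩
    · omega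
    · exact hno 1 one_pos r hr0 h3
  · have hcase2 : L.N (y + t - 1 - y ^ 2) < 1 := by
      rcases hfrob with h2 | h2
      · exfalso
        apply h1
        have e : g y - y = t * y - (y - y ^ 2) := by rw [hg]; ring
        rw [e]
        exact na_sub_lt L.na (mul_lt_left ht hy) h2
      · exact h2
    have h2 : L.N (g (g y) - y) < 1 := by
      -- `y² = y - 1 + small`
      have h3 : L.N (y ^ 2 - y + 1) < 1 := by
        have e : y ^ 2 - y + 1 = t - (y + t - 1 - y ^ 2) := by ring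
        rw [e]
        exact na_sub_lt L.na ht hcase2
      have h4 : L.N (y ^ 2 - y + 1 + t * y) < 1 := na_add_lt L.na h3 (mul_lt_left ht hy)
      have h2y : L.N (2 * y) < 1 := mul_lt_left (N_two L) hy
      have h5 : L.N (2 * (y - 1) + (y ^ 2 - y + 1 + t * y)) ≤ 1 :=
        na_add_le L.na (mul_lt_left (N_two L) (na_sub_le L.na hy hN1.le)).le h4.le
      have e : g (g y) - y = (y ^ 2 - y + 1) - 2 * y +
          (y ^ 2 - y + 1 + t * y) * (2 * (y - 1) + (y ^ 2 - y + 1 + t * y)) + t * g y := by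
        rw [hg (g y), hg y]
        ring
      rw [e]
      exact na_add_lt L.na (na_add_lt L.na (na_sub_lt L.na h3 h2y) (mul_lt_left h4 h5))
        (mul_lt_left ht (hgint y hy))
    rcases hdisc 2 (by norm_num) h2 (fun j hj0 hj => by
        have : j = 1 := by omega
        subst this
        exact not_lt.mp h1) with h3 | ⟨r, e, hr0, -, h3, -⟩
    · omega
    · exact hno 2 (by norm_num) r hr0 h3

theorem zmod_two_unit : ∀ z : ZMod 2, z ≠ 0 → (1 : ZMod 2) = z := by decide

theorem two2 (h : S_DISC) : S_TWO2 := by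
  intro L c hval n hn hne x hFP hfr
  have hc0 : c ≠ 0 := by
    rintro rfl
    simp at hval
  have h4c : L.N (4 * (c : AlgebraicClosure ℚ_[2])) = 1 := by
    rw [norm_four L c hc0, hval]
    norm_num
  have hN1 : L.N (1 : AlgebraicClosure ℚ_[2]) = 1 := map_one _
  obtain ⟨β, hβ⟩ := exists_beta (c : AlgebraicClosure ℚ_[2])
  have ht1 := t_le L c β hβ h4c.le
  -- `4 c` is a unit, hence congruent to one
  have h4c1 : L.N (1 - 4 * (c : AlgebraicClosure ℚ_[2])) < 1 := by
    have hf2 : Fact (Nat.Prime 2) := ⟨Nat.prime_two⟩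
    -- the denominator of `4 c` is odd
    have e0 : (4 * (c : AlgebraicClosure ℚ_[2])) = ((4 * c : ℚ) : AlgebraicClosure ℚ_[2]) := by push_cast; ring
    have hden : ¬ 2 ∣ (4 * c).den := by
      intro h1
      have h2 : ¬ 2 ∣ (4 * c).num.natAbs := by
        intro h4
        have h5 := Nat.dvd_gcd h4 h1
        have h6 : (4 * c).num.natAbs.gcd (4 * c).den = 1 := (4 * c).reduced
        rw [h6] at h5
        omega
      have h3 : padicValRat 2 (4 * c) = 0 := by
        have h4 : padicValRat 2 (4 : ℚ) = 2 := by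
          have h : (4 : ℚ) = (((2 : ℕ) ^ 2 : ℕ) : ℚ) := by norm_num
          rw [h, padicValRat.of_nat, padicValNat.prime_pow]
          rfl
        rw [padicValRat.mul (by norm_num) hc0, h4, hval]
        norm_num
      rw [padicValRat_def, padicValInt, padicValNat.eq_zero_of_not_dvd h2] at h3
      have h4 : 1 ≤ padicValNat 2 (4 * c).den := by
        have := (4 * c).den_nz
        exact one_le_padicValNat_of_dvd this h1
      omega
    have h1 := Rd.rat L (4 * c) hden
    rw [← e0] at h1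
    have h2 : L.N (1 - 4 * (c : AlgebraicClosure ℚ_[2])) < 1 ↔ (1 : ZMod 2) = red 2 (4 * c) :=
      (Rd.one L).iff h1
    have h3 : L.N (4 * (c : AlgebraicClosure ℚ_[2]) - 0) < 1 ↔ red 2 (4 * c) = 0 := by
      have h4 := Rd.int L 0
      push_cast at h4
      exact h1.iff h4
    rw [sub_zero, h4c] at h3
    rw [h2]
    have h5 : red 2 (4 * c) ≠ 0 := fun h6 => lt_irrefl _ (h3.mpr h6)
    exact zmod_two_unit _ h5
  have htm : L.N (2 * β - 1) < 1 := by
    have e : (2 * β - 1) ^ 2 = 1 - 4 * c := by linear_combination 4 * hβ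
    have h2 : L.N ((2 * β - 1) ^ 2) < 1 := by
      rw [e]
      exact h4c1
    rw [map_pow] at h2
    exact (pow_lt_one_iff_of_nonneg (L.N.nonneg _) (by norm_num)).mp h2
  obtain ⟨y, m', hm'0, hy, hper, hfrob, hdisc⟩ := two_data h L c n x hFP hfr β hβ ht1
  set t : AlgebraicClosure ℚ_[2] := 2 * β with htdef
  set g : AlgebraicClosure ℚ_[2] → AlgebraicClosure ℚ_[2] := fun z => z ^ 2 + t * z + 0 with hgdef
  have hg : ∀ z, g z = z ^ 2 + t * z + 0 := fun z => rfl
  have hyy : L.N (y - y ^ 2) < 1 := by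
    rcases hfrob with h1 | h1
    · exact h1
    · have e : y - y ^ 2 = (y + t - 1 - y ^ 2) - (t - 1) := by ring
      rw [e]
      exact na_sub_lt L.na h1 htm
  have hsmall : ∀ z, L.N z < 1 → L.N (g z) < 1 := by
    intro z hz
    rw [hg, add_zero]
    refine na_add_lt L.na ?_ (mul_lt_right ht1 hz)
    rw [map_pow]
    exact pow_lt_one₀ (L.N.nonneg z) hz (by norm_num)
  have hysm : L.N y < 1 := by
    by_contra hcon
    have h1 : L.N (y - 1) < 1 := by
      have e : y - y ^ 2 = -(y * (y - 1)) := by ring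
      rw [e, L.N.map_neg, map_mul L.N y (y - 1)] at hyy
      have h2 : L.N y = 1 := le_antisymm hy (not_lt.mp hcon)
      rw [h2, one_mul] at hyy
      exact hyy
    have h2 : L.N (g y) < 1 := by
      have e : g y = (y - 1) * (y + 1) + (t - 1) * y + (y - 1) + 2 := by rw [hg]; ring
      rw [e]
      refine na_add_lt L.na (na_add_lt L.na (na_add_lt L.na ?_ ?_) h1) (N_two L)
      · exact mul_lt_left h1 (na_add_le L.na hy hN1.le)
      · exact mul_lt_left htm hy
    have h3 : ∀ i, L.N (g^[i + 1] y) < 1 := by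
      intro i
      induction i with
      | zero => exact h2
      | succ i ih =>
        rw [iterate_succ_apply']
        exact hsmall _ ih
    obtain ⟨j, rfl⟩ : ∃ j, m' = j + 1 := ⟨m' - 1, by omega⟩
    have h4 := h3 j
    rw [hper] at h4
    exact hcon h4
  have h1 : L.N (g y - y) < 1 := na_sub_lt L.na (hsmall y hysm) hysm
  rcases hdisc 1 one_pos h1 (fun j hj0 hj => by omega) with h2 | ⟨r, e, hr0, hn', -, h3⟩
  · omega
  · have hr1 : r = 1 := by
      by_contra hr
      have h4 := h3 1 one_pos (by omega)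
      have h5 : L.N ((∏ i ∈ Finset.range 1, (2 * g^[i] y + t)) ^ 1 - 1) < 1 := by
        rw [Finset.prod_range_one, pow_one]
        have e : 2 * g^[0] y + t - 1 = 2 * y + (t - 1) := by
          show 2 * y + t - 1 = 2 * y + (t - 1)
          ring
        rw [e]
        exact na_add_lt L.na (mul_lt_left (N_two L) hy) htm
      linarith
    apply hne
    refine ⟨e, ?_⟩
    rw [hn', hr1]
    ring

end Pool.Agent.Q166.DY
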