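import Pool.Agent.H13DY.Stm

/-!
# Project DY (helper13), job PER2, by helper166: a continuous map of the line with a point of exact period
at least two has a point of exact period two
-/

set_option autoImplicit false

namespace Pool.Agent.Q166.DY

open Function Set

/-- if `F` has no point of exact period two then the fixed points of `F^[2]` are fixed points of `F` -/
theorem fix_of_two {F : ℝ → ℝ} (h : ∀ y, minimalPeriod F y ≠ 2) (y : ℝ) (hy : F (F y) = y) : F y = y := by
  by_contra hne
  apply h y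
  have h2 : IsPeriodicPt F 2 y := hy
  have h3 : minimalPeriod F y ∣ 2 := h2.minimalPeriod_dvd
  rcases (Nat.dvd_prime Nat.prime_two).mp h3 with h4 | h4
  · exact absurd (minimalPeriod_eq_one_iff_isFixedPt.mp h4) hne
  · exact h4

theorem sign_pos {φ : ℝ → ℝ} (hφ : Continuous φ) {s t : ℝ} (h : ∀ u ∈ uIcc s t, φ u ≠ 0)
    (hs : 0 < φ s) : 0 < φ t := by
  by_contra hcon
  have h1 : (0 : ℝ) ∈ uIcc (φ s) (φ t) := by
    rw [mem_uIcc]
    right
    exact ⟨not_lt.mp hcon, hs.le⟩
  obtain ⟨u, hu, hu0⟩ := intermediate_value_uIcc (hφ.continuousOn (s := uIcc s t)) h1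
  exact h u hu hu0

theorem per2 : Pool.Agent.H13DY.S_PER2 := by
  intro F hF x hx
  by_contra hno
  have hno' : ∀ y, minimalPeriod F y ≠ 2 := fun y hy => hno ⟨y, hy⟩
  have hfix := fix_of_two hno'
  set k : ℕ := minimalPeriod F x with hk
  have hper : IsPeriodicPt F k x := isPeriodicPt_minimalPeriod F x
  -- the orbit
  classical
  let P : Finset ℝ := (Finset.range k).image (fun i => F^[i] x)
  have hxP : ∀ i : ℕ, F^[i] x ∈ P := by
    intro i
    have h1 : F^[i % k] x = F^[i] x := (hper.iterate_mod_apply i)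
    rw [← h1]
    exact Finset.mem_image_of_mem _ (Finset.mem_range.mpr (Nat.mod_lt _ (by omega)))
  have hPF : ∀ u ∈ P, F u ∈ P := by
    intro u hu
    obtain ⟨i, -, rfl⟩ := Finset.mem_image.mp hu
    have : F (F^[i] x) = F^[i + 1] x := (iterate_succ_apply' F i x).symm
    rw [this]
    exact hxP _
  have hPk : ∀ u ∈ P, F^[k] u = u := by
    intro u hu
    obtain ⟨i, -, rfl⟩ := Finset.mem_image.mp hu
    exact (hper.apply_iterate i)
  have hPne : ∀ u ∈ P, F u ≠ u := by
    intro u hu hfx
    obtain ⟨i, hi, rfl⟩ := Finset.mem_image.mp hu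
    have hi' := Finset.mem_range.mp hi
    have h1 : F^[k - i] (F^[i] x) = F^[i] x := by
      have : IsFixedPt F (F^[i] x) := hfx
      exact (this.iterate (k - i))
    have h2 : F^[k - i] (F^[i] x) = x := by
      rw [← iterate_add_apply, Nat.sub_add_cancel hi'.le]
      exact hper
    have h3 : F x = x := by
      have h4 : F^[i] x = x := by rw [← h1]; exact h2
      rw [h4] at hfx
      exact hfx
    have h5 : minimalPeriod F x = 1 := minimalPeriod_eq_one_iff_isFixedPt.mpr h3
    omega
  have hP0 : P.Nonempty := ⟨x, hxP 0⟩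
  -- the points which move to the right
  let A : Finset ℝ := P.filter (fun u => u < F u)
  have hA0 : A.Nonempty := by
    refine ⟨P.min' hP0, Finset.mem_filter.mpr ⟨P.min'_mem hP0, ?_⟩⟩
    have h1 := P.min'_le _ (hPF _ (P.min'_mem hP0))
    exact lt_of_le_of_ne h1 (hPne _ (P.min'_mem hP0)).symm
  obtain ⟨y, hyA, hymax⟩ : ∃ y ∈ A, ∀ u ∈ A, u ≤ y := ⟨A.max' hA0, A.max'_mem hA0, fun u hu => A.le_max' u hu⟩
  obtain ⟨hyP, hyF⟩ := Finset.mem_filter.mp hyA
  let B : Finset ℝ := P.filter (fun u => y < u)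
  have hB0 : B.Nonempty := ⟨F y, Finset.mem_filter.mpr ⟨hPF y hyP, hyF⟩⟩
  obtain ⟨z, hzB, hzmin⟩ : ∃ z ∈ B, ∀ u ∈ B, z ≤ u := ⟨B.min' hB0, B.min'_mem hB0, fun u hu => B.min'_le u hu⟩
  obtain ⟨hzP, hyz⟩ := Finset.mem_filter.mp hzB
  have hzF : z ≤ F y := hzmin _ (Finset.mem_filter.mpr ⟨hPF y hyP, hyF⟩)
  have hFz : F z ≤ y := by
    by_contra hcon
    have h1 : F z ∈ B := Finset.mem_filter.mpr ⟨hPF z hzP, not_le.mp hcon⟩
    have h2 := hzmin _ h1
    have h3 : z < F z := lt_of_le_of_ne h2 (hPne z hzP).symm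
    have h4 := hymax z (Finset.mem_filter.mpr ⟨hzP, h3⟩)
    linarith
  -- the functions
  have hφ : Continuous fun t => F t - t := hF.sub continuous_id
  have hg : Continuous fun t => t - F (F t) := continuous_id.sub (hF.comp hF)
  -- the first fixed point to the right of `y`
  obtain ⟨b, ⟨⟨hyb, hbz⟩, hbF⟩, hbmin⟩ : ∃ b, IsLeast {t | t ∈ Icc y z ∧ F t = t} b := by
    have hcl : IsClosed {t : ℝ | F t = t} := isClosed_eq hF continuous_id
    have hcomp : IsCompact {t | t ∈ Icc y z ∧ F t = t} := isCompact_Icc.inter_right hcl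
    refine hcomp.exists_isLeast ?_
    have h1 : (0 : ℝ) ∈ Icc (F z - z) (F y - y) := ⟨by linarith, by linarith⟩
    obtain ⟨t, ht, ht0⟩ := intermediate_value_Icc' hyz.le (hφ.continuousOn) h1
    have ht0' : F t - t = 0 := ht0
    exact ⟨t, ht, by linarith⟩
  have hyb' : y < b := lt_of_le_of_ne hyb (fun h => by rw [← h] at hbF; exact hPne y hyP hbF)
  have hbz' : b < z := lt_of_le_of_ne hbz (fun h => by rw [h] at hbF; exact hPne z hzP hbF)
  -- a preimage of `z`
  obtain ⟨t, ⟨hyt, htb⟩, htz⟩ : ∃ t ∈ Icc y b, F t = z := by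
    have h1 : z ∈ Icc (F b) (F y) := ⟨by rw [hbF]; exact hbz'.le, hzF⟩
    exact intermediate_value_Icc' hyb'.le hF.continuousOn h1
  have htb' : t < b := lt_of_le_of_ne htb (fun h => by
    rw [h, hbF] at htz
    linarith)
  have hnofix : ∀ u, y ≤ u → u < b → F u ≠ u := by
    intro u h1 h2 h3
    have := hbmin ⟨⟨h1, by linarith⟩, h3⟩
    linarith
  -- the second iterate moves `y` to the left
  have hgt : 0 < t - F (F t) := by
    have h1 : F (F t) ≤ t := by rw [htz]; linarith
    have h2 : F (F t) ≠ t := fun h => hnofix t hyt htb' (hfix t h)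
    have := lt_of_le_of_ne h1 h2
    linarith
  have hgy : 0 < y - F (F y) := by
    refine sign_pos hg (s := t) (t := y) (fun u hu => ?_) hgt
    rw [mem_uIcc] at hu
    intro h1
    have h2 : F (F u) = u := by
      have h1' : u - F (F u) = 0 := h1
      linarith
    refine hnofix u ?_ ?_ (hfix u h2)
    · rcases hu with h | h <;> linarith [h.1, h.2]
    · rcases hu with h | h <;> linarith [h.1, h.2]
  -- there is no fixed point to the left of `y`
  have hleft : ∀ u, u ≤ y → F u ≠ u := by
    intro u0 hu0 hu0F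
    obtain ⟨a, ⟨⟨hua, hay⟩, haF⟩, hamax⟩ : ∃ a, IsGreatest {t | t ∈ Icc u0 y ∧ F t = t} a := by
      have hcl : IsClosed {t : ℝ | F t = t} := isClosed_eq hF continuous_id
      have hcomp : IsCompact {t | t ∈ Icc u0 y ∧ F t = t} := isCompact_Icc.inter_right hcl
      exact hcomp.exists_isGreatest ⟨u0, ⟨le_rfl, hu0⟩, hu0F⟩
    have hay' : a < y := lt_of_le_of_ne hay (fun h => by rw [h] at haF; exact hPne y hyP haF)
    obtain ⟨s, ⟨has, hsy⟩, hsb⟩ : ∃ s ∈ Icc a y, F s = b := by
      have h1 : b ∈ Icc (F a) (F y) := ⟨by rw [haF]; linarith, by linarith⟩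
      exact intermediate_value_Icc hay'.le hF.continuousOn h1
    have has' : a < s := lt_of_le_of_ne has (fun h => by
      rw [← h, haF] at hsb
      linarith)
    have hgs : 0 < s - F (F s) := by
      refine sign_pos hg (s := y) (t := s) (fun u hu => ?_) hgy
      rw [mem_uIcc] at hu
      intro h1
      have h2 : F (F u) = u := by
        have h1' : u - F (F u) = 0 := h1
        linarith
      have h3 : a < u := by rcases hu with h | h <;> linarith [h.1, h.2]
      have h4 : u ≤ y := by rcases hu with h | h <;> linarith [h.1, h.2]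
      have := hamax ⟨⟨by linarith, h4⟩, hfix u h2⟩
      linarith
    rw [hsb, hbF] at hgs
    linarith
  have hglobal : ∀ u, u ≤ y → F (F u) < u := by
    intro u hu
    have h1 : 0 < u - F (F u) := by
      refine sign_pos hg (s := y) (t := u) (fun w hw => ?_) hgy
      rw [mem_uIcc] at hw
      intro h1
      have h2 : F (F w) = w := by
        have h1' : w - F (F w) = 0 := h1
        linarith
      have h4 : w ≤ y := by rcases hw with h | h <;> linarith [h.1, h.2]
      exact hleft w h4 (hfix w h2)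
    linarith
  -- so `y` is not periodic
  have hiter : ∀ n : ℕ, (F ∘ F)^[n + 1] y < y := by
    intro n
    induction n with
    | zero => exact hglobal y le_rfl
    | succ n ih =>
      rw [iterate_succ_apply']
      have := hglobal _ ih.le
      exact this.trans ih
  have h1 : (F ∘ F)^[k] y = y := by
    have h2 : (F ∘ F) = F^[2] := rfl
    rw [h2, ← iterate_mul, mul_comm, iterate_mul]
    have h3 : IsFixedPt (F^[k]) y := hPk y hyP
    exact h3.iterate 2
  obtain ⟨n, hn⟩ : ∃ n, k = n + 1 := ⟨k - 1, by omega⟩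
  have h2 := hiter n
  rw [← hn, h1] at h2
  exact lt_irrefl _ h2

end Pool.Agent.Q166.DY
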