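import Pool.Agent.H13DY.Stm

/-!
# Project DY (helper13), job REAL, by helper166
-/

set_option autoImplicit false

namespace Pool.Agent.Q166.DY

open Function Pool.Agent.H13DY

theorem qm_real (c : ℚ) (i : ℕ) (x : ℝ) :
    (qm (c : ℂ))^[i] (x : ℂ) = (((qm (c : ℝ))^[i] x : ℝ) : ℂ) := by
  induction i with
  | zero => rfl
  | succ i ih =>
    rw [iterate_succ_apply', iterate_succ_apply', ih]
    unfold qm
    push_cast
    ring

theorem period_real (c : ℚ) (x : ℝ) :
    minimalPeriod (qm (c : ℂ)) (x : ℂ) = minimalPeriod (qm (c : ℝ)) x := by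
  rw [minimalPeriod_eq_minimalPeriod_iff]
  intro n
  unfold IsPeriodicPt IsFixedPt
  rw [qm_real]
  exact Complex.ofReal_inj

theorem mult_real (c : ℚ) (m : ℕ) (x : ℝ) :
    mult (c : ℂ) m (x : ℂ) = ((mult (c : ℝ) m x : ℝ) : ℂ) := by
  unfold mult
  rw [Complex.ofReal_prod]
  refine Finset.prod_congr rfl fun i _ => ?_
  rw [qm_real]
  push_cast
  ring

/-- there is no real point of exact period greater than two -/
theorem period_le_two (hper : S_PER2) (hr4 : S_R4) (c : ℝ) (hc : -5 / 4 < c) (x : ℝ) :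
    minimalPeriod (qm c) x ≤ 2 := by
  by_contra hcon
  have hm : 2 < minimalPeriod (qm c) x := not_le.mp hcon
  have hcont : Continuous (qm c) := by
    unfold qm
    fun_prop
  have hcont2 : Continuous ((qm c)^[2]) := hcont.iterate 2
  have h1 : 2 ≤ minimalPeriod ((qm c)^[2]) x := by
    rw [minimalPeriod_iterate_eq_div_gcd (by norm_num)]
    rcases (Nat.dvd_prime Nat.prime_two).mp (Nat.gcd_dvd_right (minimalPeriod (qm c) x) 2) with h2 | h2
    · rw [h2, Nat.div_one]
      exact hm.le
    · rw [h2]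
      have h3 : 2 ∣ minimalPeriod (qm c) x := by
        rw [← h2]
        exact Nat.gcd_dvd_left _ _
      obtain ⟨j, hj⟩ := h3
      rw [hj, Nat.mul_div_cancel_left _ (by norm_num)]
      omega
  obtain ⟨y, hy⟩ := hper _ hcont2 x h1
  have h2 : IsPeriodicPt ((qm c)^[2]) 2 y := by
    have := isPeriodicPt_minimalPeriod ((qm c)^[2]) y
    rw [hy] at this
    exact this
  have h3 : (qm c)^[4] y = y := by
    have : ((qm c)^[2])^[2] y = y := h2
    rw [← iterate_mul] at this
    exact this
  have h4 : (qm c)^[2] y = y := hr4 c hc y h3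
  have h5 : minimalPeriod ((qm c)^[2]) y = 1 := minimalPeriod_eq_one_iff_isFixedPt.mpr h4
  omega

theorem real (hper : S_PER2) (hr4 : S_R4) : S_REAL := by
  intro c hc n hn z hz hconj
  obtain ⟨x, rfl⟩ : ∃ x : ℝ, (x : ℂ) = z := Complex.conj_eq_iff_real.mp hconj |>.imp fun _ h => h.symm
  obtain ⟨m, hm0, hm, hcase⟩ := hz
  have hc' : (-5 / 4 : ℝ) < (c : ℝ) := by
    have : ((-5 / 4 : ℚ) : ℝ) < (c : ℝ) := by exact_mod_cast hc
    push_cast at this
    linarith
  have hm2 : m ≤ 2 := by
    rw [← hm, period_real]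
    exact period_le_two hper hr4 (c : ℝ) hc' x
  rcases hcase with h | ⟨k, hk, hnk, hprim⟩
  · omega
  rw [mult_real] at hprim
  set r : ℝ := mult (c : ℝ) m x with hr
  have hrk : r ^ k = 1 := by
    have := hprim.pow_eq_one
    exact_mod_cast this
  have hr2 : r ^ 2 = 1 := by
    have h1 : |r| ^ k = 1 := by rw [← abs_pow, hrk, abs_one]
    have h2 : |r| = 1 := (pow_eq_one_iff_of_nonneg (abs_nonneg r) (by omega)).mp h1
    rw [← sq_abs, h2, one_pow]
  have hk2 : k ∣ 2 := by
    apply hprim.dvd_of_pow_eq_one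
    exact_mod_cast hr2
  have hk2' : k = 2 := by
    have := Nat.le_of_dvd (by norm_num) hk2
    omega
  subst hk2'
  have hm2' : m = 2 := by omega
  subst hm2'
  have hr1 : r = -1 := by
    have h1 : (r : ℂ) = -1 := hprim.eq_neg_one_of_two_right
    exact_mod_cast h1
  -- the two cycle
  have hx : minimalPeriod (qm (c : ℝ)) x = 2 := by rw [← period_real]; exact hm
  set w : ℝ := qm (c : ℝ) x with hw
  have hw1 : qm (c : ℝ) w = x := by
    have h1 : IsPeriodicPt (qm (c : ℝ)) 2 x := by
      rw [← hx]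
      exact isPeriodicPt_minimalPeriod _ _
    exact h1
  have hw2 : w ≠ x := by
    intro h1
    have h2 : minimalPeriod (qm (c : ℝ)) x = 1 := minimalPeriod_eq_one_iff_isFixedPt.mpr h1
    omega
  have e1 : w = x ^ 2 + c := rfl
  have e2 : x = w ^ 2 + c := hw1.symm
  have e3 : x + w = -1 := by
    have h1 : (w - x) * (1 + x + w) = 0 := by linear_combination e1 - e2
    rcases mul_eq_zero.mp h1 with h2 | h2
    · exact absurd (sub_eq_zero.mp h2) hw2
    · linarith
  have e4 : x * w = 1 + c := by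
    have : w = -1 - x := by linarith
    have h5 : x * w = -x - x ^ 2 := by rw [this]; ring
    linarith
  have e5 : r = 4 * (x * w) := by
    rw [hr]
    unfold mult
    rw [Finset.prod_range_succ, Finset.prod_range_succ, Finset.prod_range_zero]
    show 1 * (2 * x) * (2 * w) = 4 * (x * w)
    ring
  rw [e4, hr1] at e5
  linarith

end Pool.Agent.Q166.DY
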