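import Pool.Agent.H13DY.Stm

/-!
# Project DY (helper13), job SQ, by helper166
-/

set_option autoImplicit false

namespace Pool.Agent.Q166.DY

open Function Pool.Agent.H13DY

/-- the valuation of a rational number `a` with `1 - a` a square in `ℚ_p` -/
theorem even_val (p : ℕ) [Fact p.Prime] (a : ℚ) (ha : 1 < ‖(a : ℚ_[p])‖) (hs : IsSquare ((1 : ℚ_[p]) - a)) :
    Even (padicValRat p a) := by
  obtain ⟨z, hz⟩ := hs
  have ha0 : (a : ℚ_[p]) ≠ 0 := by
    intro h
    rw [h, norm_zero] at ha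
    linarith
  have h1 : ‖(1 : ℚ_[p]) - a‖ = ‖(a : ℚ_[p])‖ := by
    rw [sub_eq_add_neg, Padic.add_eq_max_of_ne]
    · rw [norm_neg, norm_one]
      exact max_eq_right ha.le
    · rw [norm_neg, norm_one]
      exact ha.ne
  have hz0 : z ≠ 0 := by
    rintro rfl
    rw [hz, mul_zero, norm_zero] at h1
    exact ha0 (norm_eq_zero.mp h1.symm)
  have h2 : (1 : ℚ_[p]) - a ≠ 0 := by
    rw [hz]
    exact mul_ne_zero hz0 hz0
  have hp1 : (1 : ℝ) < p := by exact_mod_cast (Fact.out : p.Prime).one_lt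
  rw [Padic.norm_eq_zpow_neg_valuation h2, Padic.norm_eq_zpow_neg_valuation ha0] at h1
  have h3 := zpow_right_injective₀ (by linarith : (0 : ℝ) < p) hp1.ne' h1
  have h4 : ((1 : ℚ_[p]) - a).valuation = z.valuation + z.valuation := by
    rw [hz, Padic.valuation_mul hz0 hz0]
  have h5 : (a : ℚ_[p]).valuation = padicValRat p a := Padic.valuation_ratCast a
  refine ⟨z.valuation, ?_⟩
  simp only [neg_inj] at h3
  omega

theorem isSquare_of_even (N : ℕ) (hN : N ≠ 0)
    (h : ∀ p : ℕ, p.Prime → p ∣ N → Even (N.factorization p)) : ∃ b, N = b ^ 2 := by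
  obtain ⟨a, b, hab, hsq⟩ := Nat.sq_mul_squarefree N
  have ha0 : a ≠ 0 := by
    rintro rfl
    rw [mul_zero] at hab
    exact hN hab.symm
  have hb0 : b ≠ 0 := by
    rintro rfl
    rw [← hab] at hN
    simp at hN
  by_cases ha : a = 1
  · exact ⟨b, by rw [← hab, ha, mul_one]⟩
  exfalso
  obtain ⟨p, hp, hpa⟩ := Nat.exists_prime_and_dvd ha
  have h1 : p ∣ N := by
    rw [← hab]
    exact Dvd.dvd.mul_left hpa _
  have h2 := h p hp h1
  have h3 : N.factorization p = 2 * b.factorization p + a.factorization p := by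
    rw [← hab, Nat.factorization_mul (pow_ne_zero 2 hb0) ha0, Nat.factorization_pow]
    simp
  have h4 : a.factorization p ≤ 1 := hsq.natFactorization_le_one p
  have h5 : 1 ≤ a.factorization p := (hp.dvd_iff_one_le_factorization ha0).mp hpa
  obtain ⟨j, hj⟩ := h2
  omega

theorem val_four (p : ℕ) (hp : p.Prime) (h2 : p ≠ 2) : padicValRat p (4 : ℚ) = 0 := by
  have : Fact p.Prime := ⟨hp⟩
  have h : (4 : ℚ) = ((4 : ℕ) : ℚ) := by norm_num
  rw [h, padicValRat.of_nat]
  have h3 : padicValNat p 4 = 0 := by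
    apply padicValNat.eq_zero_of_not_dvd
    intro h4
    have h5 : p ∣ 2 ^ 2 := by simpa using h4
    have h6 := hp.dvd_of_dvd_pow h5
    exact h2 ((Nat.prime_dvd_prime_iff_eq hp Nat.prime_two).mp h6)
  rw [h3]
  rfl

theorem val_four_two : padicValRat 2 (4 : ℚ) = 2 := by
  have : Fact (Nat.Prime 2) := ⟨Nat.prime_two⟩
  have h : (4 : ℚ) = (((2 : ℕ) ^ 2 : ℕ) : ℚ) := by norm_num
  rw [h, padicValRat.of_nat, padicValNat.prime_pow]
  rfl

theorem sq (h2 : S_ADM2) : S_SQ := by
  intro c n hn hE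
  have hf2 : Fact (Nat.Prime 2) := ⟨Nat.prime_two⟩
  have h2den : 2 ∣ c.den := by
    by_contra hcon
    have := h2 _ n (hE.good 2 Nat.prime_two hcon)
    omega
  have hden0 : c.den ≠ 0 := c.den_nz
  have hc0 : c ≠ 0 := by
    rintro rfl
    simp at h2den
  have hval : ∀ p : ℕ, p.Prime → p ∣ c.den → padicValRat p c = -(c.den.factorization p : ℤ) := by
    intro p hp hpd
    have h3 : ¬ p ∣ c.num.natAbs := by
      intro h4
      have h5 := Nat.dvd_gcd h4 hpd
      have h6 : c.num.natAbs.gcd c.den = 1 := c.reduced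
      rw [h6] at h5
      exact hp.one_lt.ne' (Nat.dvd_one.mp h5)
    rw [padicValRat_def, padicValInt, padicValNat.eq_zero_of_not_dvd h3, Nat.factorization_def _ hp]
    simp
  have hpos : ∀ p : ℕ, p.Prime → p ∣ c.den → 1 ≤ c.den.factorization p := fun p hp hpd =>
    (hp.dvd_iff_one_le_factorization hden0).mp hpd
  have heven : ∀ p : ℕ, ∀ _ : Fact p.Prime, padicValRat p (4 * c) < 0 → Even (padicValRat p (4 * c)) := by
    intro p hp hlt
    have hp1 : (1 : ℝ) < p := by exact_mod_cast (Fact.out : p.Prime).one_lt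
    have h4c : ((4 * c : ℚ) : ℚ_[p]) ≠ 0 := by
      rw [Ne, Rat.cast_eq_zero]
      exact mul_ne_zero (by norm_num) hc0
    have hnorm : 1 < ‖((4 * c : ℚ) : ℚ_[p])‖ := by
      rw [Padic.norm_eq_zpow_neg_valuation h4c, Padic.valuation_ratCast]
      exact one_lt_zpow₀ hp1 (by omega)
    refine even_val p (4 * c) hnorm ?_
    have h5 := hE.bad p hnorm
    have h6 : ((1 - 4 * c : ℚ) : ℚ_[p]) = (1 : ℚ_[p]) - ((4 * c : ℚ) : ℚ_[p]) := by push_cast; ring
    rw [h6] at h5
    exact h5
  obtain ⟨b, hb⟩ := isSquare_of_even c.den hden0 (by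
    intro p hp hpd
    have hfp : Fact p.Prime := ⟨hp⟩
    have h3 := hval p hp hpd
    have h4 := hpos p hp hpd
    have h5 : padicValRat p (4 * c) = padicValRat p 4 + padicValRat p c :=
      padicValRat.mul (by norm_num) hc0
    by_cases hp2 : p = 2
    · subst hp2
      rw [val_four_two, h3] at h5
      have h6 := hE.two1
      rw [h3] at h6
      by_cases h7 : c.den.factorization 2 = 2
      · rw [h7]
        exact even_two
      · have h8 := heven 2 hf2 (by rw [h5]; omega)
        rw [h5] at h8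
        obtain ⟨j, hj⟩ := h8
        exact ⟨(1 - j).toNat, by omega⟩
    · rw [val_four p hp hp2, h3, zero_add] at h5
      have h8 := heven p hfp (by rw [h5]; omega)
      rw [h5] at h8
      obtain ⟨j, hj⟩ := h8
      exact ⟨(-j).toNat, by omega⟩)
  have h3 : 2 ∣ b := by
    rw [hb] at h2den
    exact Nat.prime_two.dvd_of_dvd_pow h2den
  obtain ⟨k, hk⟩ := h3
  exact ⟨k, by rw [hb, hk]⟩

end Pool.Agent.Q166.DY
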